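import Pool.Agent.H34.Final

/-!
# Constant sequences with a generalized `(C, λ)`-structure need not be generalized hyperbolic

We construct a (real, respectively complex) Banach space `B` and a linear isomorphism `T` of `B`
such that the constant sequence `A_k = T` has a generalized `(C, λ)`-structure, although `T` is
not generalized hyperbolic.

Outline.

* Algebra. Let `R` be the Toeplitz type Banach algebra generated by the unilateral shift `x` and
  its left inverse `y`, and `p = 1 - x * y` its rank one idempotent. On the loop algebra of
  `ℓ^∞(ℤ, R)` twisted by a gluing condition with `p`, the weighted shift `t` has a square which is
  generalized hyperbolic with respect to an idempotent `q` of a separable Banach algebra `A`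
  containing `t` and its inverse. An idempotent of `A` making `t` itself generalized hyperbolic
  would trivialise the bundle of kernels of `z - t`, and give a homotopy, through loops of
  invertible elements of `R`, from the constant loop `1` to the loop `1 + (z - 1) p`. A
  determinant of finite sections shows that there is no such homotopy.
* Transfer. Using stationary sets of countable ordinals we build, for a separable Banach algebra
  `A`, a Banach space `V` of `A`-valued functions on the first uncountable ordinal, an embedding
  of `A` into the bounded operators on `V`, and a left inverse of this embedding which is an
  algebra homomorphism of norm one. So the same phenomenon happens for an operator on `V`.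
-/

set_option autoImplicit false

namespace Pool.Agent.Results.MP_dd2ee2_an.ConstSeqNotGH

open Pool.Agent.H34

/-- There are a real and a complex Banach space `B` with a linear isomorphism `T` such that the
constant sequence `A_k = T` has a generalized `(C, λ)`-structure, but `T` is not generalized
hyperbolic. -/
theorem result :
    (∃ (B : Type) (_ : NormedAddCommGroup B) (_ : NormedSpace ℝ B) (_ : CompleteSpace B)
      (T : B ≃L[ℝ] B),
      HasGeneralizedCLStructure (fun _ : ℤ => T) ∧ ¬ IsGeneralizedHyperbolic T) ∧
    (∃ (B : Type) (_ : NormedAddCommGroup B) (_ : NormedSpace ℂ B) (_ : CompleteSpace B)
      (T : B ≃L[ℂ] B),
      HasGeneralizedCLStructure (fun _ : ℤ => T) ∧ ¬ IsGeneralizedHyperbolic T) :=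
  ⟨Loop.main_real, Loop.main_complex⟩

end Pool.Agent.Results.MP_dd2ee2_an.ConstSeqNotGH
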